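import Pool.Agent.MP_9758ca_gt.GBasic

/-!
Based ball embeddings, part 1: compactly supported twists of `E6` and concatenation of families.
-/

open scoped Topology ContDiff
open Set Metric Filter

namespace Pool.Agent.MP_9758ca_gt.Bas

noncomputable section

/-- the standard complex structure as a continuous linear map -/
def jL : E6 →L[ℝ] E6 := Classical.choose exists_j6L

theorem jL_apply (y : E6) : jL y = j6 y := (Classical.choose_spec exists_j6L).1 y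

/-- rotation by the angle `θ` -/
def rot (θ : ℝ) (y : E6) : E6 := Real.cos θ • y + Real.sin θ • jL y

theorem rot_apply (θ : ℝ) (y : E6) :
    rot θ y 0 = Real.cos θ * y 0 - Real.sin θ * y 1 ∧
    rot θ y 1 = Real.cos θ * y 1 + Real.sin θ * y 0 ∧
    rot θ y 2 = Real.cos θ * y 2 - Real.sin θ * y 3 ∧
    rot θ y 3 = Real.cos θ * y 3 + Real.sin θ * y 2 ∧
    rot θ y 4 = Real.cos θ * y 4 - Real.sin θ * y 5 ∧
    rot θ y 5 = Real.cos θ * y 5 + Real.sin θ * y 4 := by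
  simp [rot, jL_apply, j6, sub_eq_add_neg]

theorem nsq6 (y : E6) :
    ‖y‖ ^ 2 = y 0 ^ 2 + y 1 ^ 2 + y 2 ^ 2 + y 3 ^ 2 + y 4 ^ 2 + y 5 ^ 2 := by
  rw [EuclideanSpace.real_norm_sq_eq, Fin.sum_univ_six]

theorem norm_rot (θ : ℝ) (y : E6) : ‖rot θ y‖ = ‖y‖ := by
  obtain ⟨h0, h1, h2, h3, h4, h5⟩ := rot_apply θ y
  refine (pow_left_inj₀ (norm_nonneg _) (norm_nonneg _) two_ne_zero).1 ?_
  rw [nsq6, nsq6, h0, h1, h2, h3, h4, h5]
  linear_combination (y 0 ^ 2 + y 1 ^ 2 + y 2 ^ 2 + y 3 ^ 2 + y 4 ^ 2 + y 5 ^ 2) *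
    Real.cos_sq_add_sin_sq θ

theorem rot_zero (y : E6) : rot 0 y = y := by simp [rot]

theorem rot_pi (y : E6) : rot Real.pi y = -y := by simp [rot]

theorem rot_inj (θ : ℝ) {y z : E6} (h : rot θ y = rot θ z) : y = z := by
  have h1 : rot θ (y - z) = rot θ y - rot θ z := by
    simp only [rot, map_sub, smul_sub]
    abel
  have h2 := norm_rot θ (y - z)
  rw [h1, h, sub_self, norm_zero] at h2
  exact sub_eq_zero.1 (norm_eq_zero.1 h2.symm)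

/-- the twist with profile `f` at time `t` -/
def tw (f : ℝ → ℝ) (t : ℝ) (y : E6) : E6 := rot (t * f (‖y‖ ^ 2)) y

theorem norm_tw (f : ℝ → ℝ) (t : ℝ) (y : E6) : ‖tw f t y‖ = ‖y‖ := norm_rot _ _

theorem tw_zero (f : ℝ → ℝ) (y : E6) : tw f 0 y = y := by rw [tw, zero_mul, rot_zero]

theorem tw_out {f : ℝ → ℝ} (t : ℝ) {y : E6} (h : f (‖y‖ ^ 2) = 0) : tw f t y = y := by
  rw [tw, h, mul_zero, rot_zero]

theorem tw_neg {f : ℝ → ℝ} {y : E6} (h : f (‖y‖ ^ 2) = Real.pi) : tw f 1 y = -y := by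
  rw [tw, h, one_mul, rot_pi]

theorem tw_inj (f : ℝ → ℝ) (t : ℝ) {y z : E6} (h : tw f t y = tw f t z) : y = z := by
  have h1 : ‖y‖ = ‖z‖ := by rw [← norm_tw f t y, h, norm_tw]
  rw [tw, tw, h1] at h
  exact rot_inj _ h

theorem cd_tw {f : ℝ → ℝ} (hf : ContDiff ℝ ∞ f) :
    ContDiff ℝ ∞ fun q : ℝ × E6 => tw f q.1 q.2 := by
  have h1 : ContDiff ℝ ∞ fun q : ℝ × E6 => q.1 * f (‖q.2‖ ^ 2) :=
    contDiff_fst.mul (hf.comp ((contDiff_norm_sq ℝ).comp contDiff_snd))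
  exact (h1.cos.smul contDiff_snd).add (h1.sin.smul (jL.contDiff.comp contDiff_snd))

theorem cd_tw' {f : ℝ → ℝ} (hf : ContDiff ℝ ∞ f) (t : ℝ) : ContDiff ℝ ∞ (tw f t) :=
  ContDiff.comp (g := fun q : ℝ × E6 => tw f q.1 q.2) (f := fun y : E6 => (t, y)) (cd_tw hf)
    (contDiff_const.prodMk contDiff_id)

theorem fd_tw {f : ℝ → ℝ} (hf : ContDiff ℝ ∞ f) (t : ℝ) (y : E6) : ∃ θ c : ℝ, ∀ a,
    fderiv ℝ (tw f t) y a = rot θ (a + (c * inner ℝ y a) • jL y) := by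
  have h1 : HasFDerivAt (fun z : E6 => t * f (‖z‖ ^ 2))
      (t • (deriv f (‖y‖ ^ 2) • (2 • innerSL ℝ y))) y :=
    ((hf.differentiable (by simp) _).hasDerivAt.comp_hasFDerivAt y
      (hasStrictFDerivAt_norm_sq y).hasFDerivAt).const_mul t
  have h2 := (h1.cos.smul (hasFDerivAt_id y)).add (h1.sin.smul jL.hasFDerivAt)
  refine ⟨t * f (‖y‖ ^ 2), t * deriv f (‖y‖ ^ 2) * 2, fun a => ?_⟩
  have h3 : fderiv ℝ (tw f t) y = _ := h2.fderiv
  have h4 : jL (jL y) = -y := (Classical.choose_spec exists_j6L).2 y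
  rw [h3]
  simp only [rot, map_add, map_smul, h4, _root_.add_apply,
    _root_.smul_apply, ContinuousLinearMap.id_apply,
    ContinuousLinearMap.smulRight_apply, innerSL_apply_apply, smul_eq_mul, id, nsmul_eq_mul,
    Nat.cast_ofNat]
  module

theorem om0_rot (θ : ℝ) (a b : E6) : om0 (rot θ a) (rot θ b) = om0 a b := by
  obtain ⟨h0, h1, h2, h3, h4, h5⟩ := rot_apply θ a
  obtain ⟨k0, k1, k2, k3, k4, k5⟩ := rot_apply θ b
  rw [om0, om0, h0, h1, h2, h3, h4, h5, k0, k1, k2, k3, k4, k5]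
  linear_combination (a 0 * b 1 - a 1 * b 0 + (a 2 * b 3 - a 3 * b 2) +
    (a 4 * b 5 - a 5 * b 4)) * Real.cos_sq_add_sin_sq θ

theorem om0_tw {f : ℝ → ℝ} (hf : ContDiff ℝ ∞ f) (t : ℝ) (y a b : E6) :
    om0 (fderiv ℝ (tw f t) y a) (fderiv ℝ (tw f t) y b) = om0 a b := by
  obtain ⟨θ, c, h⟩ := fd_tw hf t y
  rw [h, h, om0_rot]
  simp [om0, jL_apply, j6, EuclideanSpace.inner_eq_star_dotProduct, dotProduct,
    Fin.sum_univ_six]
  ring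

/-- a profile that is `π` up to `‖a‖²` and vanishes before `ρ²` -/
theorem exists_profile {ρ s : ℝ} (hs : 0 ≤ s) (h : s < ρ) : ∃ (f : ℝ → ℝ) (ρ' : ℝ),
    ContDiff ℝ ∞ f ∧ ρ' < ρ ∧ f (s ^ 2) = Real.pi ∧ ∀ u, ρ' ≤ u → f (u ^ 2) = 0 := by
  have h1 : s ^ 2 < ((s + ρ) / 2) ^ 2 := pow_lt_pow_left₀ (by linarith) hs two_ne_zero
  refine ⟨fun u => Real.pi * stp (s ^ 2) (((s + ρ) / 2) ^ 2) u, (s + ρ) / 2,
    contDiff_const.mul (contDiff_stp _ _), by linarith, ?_, fun u hu => ?_⟩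
  · simp only [stp_one h1 le_rfl, mul_one]
  · simp only [stp_zero h1 (pow_le_pow_left₀ (by linarith) hu 2), mul_zero]

/-! ### smooth families -/

section Path

variable {V : Type} [NormedAddCommGroup V] [NormedSpace ℝ V]

/-- a smooth family of maps with the property `P` from `ψ₀` to `ψ₁` -/
def Pth (P : (E6 → V) → Prop) (r : ℝ) (ψ₀ ψ₁ : E6 → V) : Prop :=
  ∃ Ψ : ℝ × E6 → V, ContDiffOn ℝ ∞ Ψ (Icc 0 1 ×ˢ closedBall 0 r) ∧
    (∀ t ∈ Icc (0 : ℝ) 1, P fun y => Ψ (t, y)) ∧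
    (∀ y ∈ closedBall (0 : E6) r, Ψ (0, y) = ψ₀ y) ∧ ∀ y ∈ closedBall (0 : E6) r, Ψ (1, y) = ψ₁ y

variable {P Q : (E6 → V) → Prop} {r : ℝ} {ψ₀ ψ₁ ψ₂ : E6 → V}

theorem Pth.mono (h : Pth P r ψ₀ ψ₁) (hPQ : ∀ ψ, P ψ → Q ψ) : Pth Q r ψ₀ ψ₁ := by
  obtain ⟨Ψ, h1, h2, h3⟩ := h
  exact ⟨Ψ, h1, fun t ht => hPQ _ (h2 t ht), h3⟩

theorem Pth.refl (h : P ψ₀) (hs : ContDiffOn ℝ ∞ ψ₀ (closedBall 0 r)) : Pth P r ψ₀ ψ₀ :=
  ⟨fun q => ψ₀ q.2, hs.comp contDiff_snd.contDiffOn fun _ hq => hq.2, fun _ _ => h,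
    fun _ _ => rfl, fun _ _ => rfl⟩

theorem Pth.symm (h : Pth P r ψ₀ ψ₁) : Pth P r ψ₁ ψ₀ := by
  obtain ⟨Ψ, h1, h2, h3, h4⟩ := h
  exact ⟨fun q => Ψ (1 - q.1, q.2), h1.comp (by fun_prop) fun q hq =>
    ⟨⟨by linarith [hq.1.2], by linarith [hq.1.1]⟩, hq.2⟩, fun t ht =>
    h2 (1 - t) ⟨by linarith [ht.2], by linarith [ht.1]⟩, fun y hy => by simpa using h4 y hy,
    fun y hy => by simpa using h3 y hy⟩

theorem Pth.trans (h : Pth P r ψ₀ ψ₁) (h' : Pth P r ψ₁ ψ₂) : Pth P r ψ₀ ψ₂ := by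
  classical
  obtain ⟨Ψ, a1, a2, a3, a4⟩ := h
  obtain ⟨Θ, b1, b2, b3, b4⟩ := h'
  let u : ℝ → ℝ := fun t => 1 - stp 0 (1 / 3) t
  let v : ℝ → ℝ := fun t => 1 - stp (2 / 3) 1 t
  have hu : ∀ t, u t ∈ Icc (0 : ℝ) 1 := fun t =>
    ⟨sub_nonneg.2 (stp_mem _ _ t).2, sub_le_self _ (stp_mem _ _ t).1⟩
  have hv : ∀ t, v t ∈ Icc (0 : ℝ) 1 := fun t =>
    ⟨sub_nonneg.2 (stp_mem _ _ t).2, sub_le_self _ (stp_mem _ _ t).1⟩
  have su : ContDiffOn ℝ ∞ (fun q : ℝ × E6 => Ψ (u q.1, q.2)) (Icc 0 1 ×ˢ closedBall 0 r) :=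
    a1.comp (((contDiff_const.sub (contDiff_stp _ _)).comp contDiff_fst).prodMk
      contDiff_snd).contDiffOn fun q hq => ⟨hu _, hq.2⟩
  have sv : ContDiffOn ℝ ∞ (fun q : ℝ × E6 => Θ (v q.1, q.2)) (Icc 0 1 ×ˢ closedBall 0 r) :=
    b1.comp (((contDiff_const.sub (contDiff_stp _ _)).comp contDiff_fst).prodMk
      contDiff_snd).contDiffOn fun q hq => ⟨hv _, hq.2⟩
  have mid : ∀ q ∈ Icc (0 : ℝ) 1 ×ˢ closedBall (0 : E6) r, 1 / 3 ≤ q.1 → q.1 ≤ 2 / 3 →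
      Ψ (u q.1, q.2) = Θ (v q.1, q.2) := fun q hq c1 c2 => by
    have e1 : u q.1 = 1 := by
      simp only [u, stp_zero (by norm_num : (0 : ℝ) < 1 / 3) c1, sub_zero]
    have e2 : v q.1 = 0 := by
      simp only [v, stp_one (by norm_num : (2 : ℝ) / 3 < 1) c2, sub_self]
    rw [e1, e2, a4 _ hq.2, b3 _ hq.2]
  refine ⟨fun q => if q.1 ≤ 1 / 2 then Ψ (u q.1, q.2) else Θ (v q.1, q.2), fun q hq => ?_,
    fun t ht => ?_, fun y hy => ?_, fun y hy => ?_⟩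
  · by_cases c : q.1 ≤ 1 / 2
    · refine (su q hq).congr_of_eventuallyEq_of_mem ?_ hq
      have : ∀ᶠ q' : ℝ × E6 in 𝓝 q, q'.1 < 2 / 3 :=
        continuous_fst.continuousAt.eventually (gt_mem_nhds (by linarith))
      filter_upwards [nhdsWithin_le_nhds this, self_mem_nhdsWithin] with q' c1 c2
      split_ifs with c3
      · rfl
      · exact (mid q' c2 (by linarith) c1.le).symm
    · refine (sv q hq).congr_of_eventuallyEq_of_mem ?_ hq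
      have : ∀ᶠ q' : ℝ × E6 in 𝓝 q, 1 / 2 < q'.1 :=
        continuous_fst.continuousAt.eventually (lt_mem_nhds (not_le.1 c))
      filter_upwards [nhdsWithin_le_nhds this] with q' c1
      exact if_neg (not_le.2 c1)
  · by_cases c : t ≤ 1 / 2
    · simpa only [if_pos c] using a2 _ (hu t)
    · simpa only [if_neg c] using b2 _ (hv t)
  · have e1 : u 0 = 0 := by simp only [u, stp_one (by norm_num : (0 : ℝ) < 1 / 3) le_rfl, sub_self]
    simp only [if_pos (by norm_num : (0 : ℝ) ≤ 1 / 2), e1, a3 y hy]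
  · have e1 : v 1 = 1 := by
      simp only [v, stp_zero (by norm_num : (2 : ℝ) / 3 < 1) le_rfl, sub_zero]
    simp only [if_neg (by norm_num : ¬ (1 : ℝ) ≤ 1 / 2), e1, b4 y hy]

theorem Pth.chain {β : ℕ → E6 → V} (h0 : ∀ n, P (β n))
    (hs : ∀ n, ContDiffOn ℝ ∞ (β n) (closedBall 0 r)) (h : ∀ n, Pth P r (β n) (β (n + 1)))
    (m n : ℕ) : Pth P r (β m) (β n) := by
  have key : ∀ k, Pth P r (β 0) (β k) := fun k => by
    induction k with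
    | zero => exact Pth.refl (h0 0) (hs 0)
    | succ k ih => exact ih.trans (h k)
  exact (key m).symm.trans (key n)

end Path

end

end Pool.Agent.MP_9758ca_gt.Bas
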