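import Pool.Agent.MP_9758ca_gt.PG
import Pool.Agent.MP_9758ca_gt.PK
import Pool.Agent.MP_9758ca_gt.Bas.Tw

/-!
Based ball embeddings, part 2: pushing the centre of a ball through a Darboux chart.
-/

open scoped Topology ContDiff
open Set Metric Filter

namespace Pool.Agent.MP_9758ca_gt.Bas

open QuotP

noncomputable section

variable {W : Type} [NormedAddCommGroup W] [NormedSpace ℝ W]

/-- the deck transformation -/
def sh (n : ℤ) (x : W × ℝ) : W × ℝ := x + (0, 2 * (n : ℝ))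

omit [NormedSpace ℝ W] in
theorem sh_eq (n : ℤ) (x : W × ℝ) : sh n x = (x.1, x.2 + 2 * n) := by
  ext <;> simp [sh]

omit [NormedSpace ℝ W] in
theorem sh_zero (x : W × ℝ) : sh 0 x = x := by
  ext <;> simp [sh]

omit [NormedSpace ℝ W] in
theorem th_sh (n : ℤ) (x : W × ℝ) : QuotP.th (sh n x) = QuotP.th x := th_eq_iff.2 ⟨n, sh_eq n x⟩

omit [NormedSpace ℝ W] in
theorem th_eq {x x' : W × ℝ} (h : QuotP.th x' = QuotP.th x) : ∃ n : ℤ, x' = sh n x := by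
  simpa only [sh_eq] using th_eq_iff.1 h

variable {A : Atl (W × ℝ)} {S : Set (W × ℝ)}

/-- a ball that stays embedded in the quotient -/
structure QBall (A : Atl (W × ℝ)) (S : Set (W × ℝ)) (r : ℝ) (ψ : E6 → W × ℝ) : Prop where
  ball : A.Ball S r ψ
  qinj : InjOn (fun y => QuotP.th (ψ y)) (closedBall 0 r)

theorem ball_sh (H : Hy A S) {r : ℝ} (hr : 0 < r) {ψ : E6 → W × ℝ} (h : A.Ball S r ψ) (n : ℤ) :
    A.Ball S r fun y => sh n (ψ y) := by
  refine ⟨h.sm.add contDiffOn_const, fun y hy => ?_, fun y hy z hz e => ?_,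
    fun y hy i hi a b => ?_⟩
  · simpa only [sh_eq] using H.sh n _ (h.mem hy)
  · exact h.inj hy hz (add_right_cancel e)
  · have hu := uniq hr y hy
    have hd : DifferentiableWithinAt ℝ ψ (closedBall 0 r) y :=
      (h.sm y hy).differentiableWithinAt (by simp)
    have e : fderivWithin ℝ (fun y => sh n (ψ y)) (closedBall 0 r) y =
        fderivWithin ℝ ψ (closedBall 0 r) y := fderivWithin_add_const _
    obtain ⟨k, hk⟩ := H.pre.cov _ (h.mem hy)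
    obtain ⟨j, hj⟩ := H.shl n k
    rw [e, ← h.pull y hy k hk a b, ← (hj _ hk).2, sh_eq] at *
    exact (H.com _ (H.sh n _ (h.mem hy)) i j hi (hj _ hk).1 _
      (QuotP.tan_shift H.sh n (fderivWithin_mem_tan hu hd h.mem a)) _
      (QuotP.tan_shift H.sh n (fderivWithin_mem_tan hu hd h.mem b))).2.1

theorem iso_sh (H : Hy A S) {r : ℝ} (hr : 0 < r) {ψ₀ ψ₁ : E6 → W × ℝ}
    (h : Pth (A.Ball S r) r ψ₀ ψ₁) (n : ℤ) :
    Pth (A.Ball S r) r (fun y => sh n (ψ₀ y)) fun y => sh n (ψ₁ y) := by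
  obtain ⟨Ψ, h1, h2, h3, h4⟩ := h
  exact ⟨fun q => sh n (Ψ q), h1.add contDiffOn_const, fun t ht => ball_sh H hr (h2 t ht) n,
    fun y hy => by simp only [h3 y hy], fun y hy => by simp only [h4 y hy]⟩

theorem rank_tan [FiniteDimensional ℝ W] (H : Hy A S) {x : W × ℝ} (hx : x ∈ S) :
    Module.finrank ℝ (tan S x) = 6 := by
  obtain ⟨i, hi⟩ := H.pre.cov x hx
  let L : tan S x →ₗ[ℝ] C3 := (A.η i x).toLinearMap ∘ₗ (tan S x).subtype
  have h1 : Function.Injective L := (injective_iff_map_eq_zero L).2 fun a ha =>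
    Subtype.ext (H.pre.inj i x hx hi _ a.2 ha)
  have h2 : Function.Surjective L := fun w => by
    obtain ⟨v, h3, h4⟩ := H.pre.surj i x hx hi w
    exact ⟨⟨v, h3⟩, h4⟩
  rw [(LinearEquiv.ofBijective L ⟨h1, h2⟩).finrank_eq, Module.finrank_pi_fintype]
  simp

/-- interior points of a ball -/
theorem ball_int {r : ℝ} {χ : E6 → W × ℝ} (h : A.Ball S r χ) {z : E6} (hz : ‖z‖ < r) :
    ContDiffAt ℝ ∞ χ z ∧ (∀ᶠ w in 𝓝 z, χ w ∈ S) ∧ ∀ i, χ z ∈ A.U i → ∀ a b,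
      dd (A.l i) (χ z) (fderiv ℝ χ z a) (fderiv ℝ χ z b) = om0 a b := by
  have hn : closedBall (0 : E6) r ∈ 𝓝 z :=
    mem_of_superset (isOpen_ball.mem_nhds (mem_ball_zero_iff.2 hz)) ball_subset_closedBall
  refine ⟨h.sm.contDiffAt hn, mem_of_superset hn fun w hw => h.mem hw, fun i hi a b => ?_⟩
  rw [← fderivWithin_of_mem_nhds hn]
  exact h.pull z (mem_of_mem_nhds hn) i hi a b

/-- the local inverse of a ball -/
theorem ball_inv [FiniteDimensional ℝ W] (H : Hy A S) (hR : LocRetr S) {r : ℝ}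
    {χ : E6 → W × ℝ} (h : A.Ball S r χ) {z : E6} (hz : ‖z‖ < r) :
    ∃ κ : W × ℝ → E6, ContDiffAt ℝ ∞ κ (χ z) ∧ κ (χ z) = z ∧
      ∀ᶠ x in 𝓝 (χ z), x ∈ S → χ (κ x) = x := by
  obtain ⟨h1, h2, h3⟩ := ball_int h hz
  have hS := h2.self_of_nhds
  obtain ⟨L⟩ := ManifoldP.exists_loc hR hS (rank_tan H hS)
  obtain ⟨i, hi⟩ := H.pre.cov _ hS
  have hd := (h1.differentiableAt (by simp)).hasFDerivAt
  have hF : ContDiffAt ℝ ∞ (fun w => L.f (χ w)) z := L.f.contDiff.contDiffAt.comp z h1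
  have hF' : HasFDerivAt (fun w => L.f (χ w)) (L.f.comp (fderiv ℝ χ z)) z :=
    L.f.hasFDerivAt.comp z hd
  have hN : ∀ᶠ w in 𝓝 z, χ w ∈ L.N := h1.continuousAt.eventually (L.opN.mem_nhds L.mem)
  have hp : HasFDerivAt L.p (fderiv ℝ L.p (L.f (χ z))) (L.f (χ z)) :=
    ((L.sm.contDiffAt (L.opW.mem_nhds (L.left _ ⟨hS, L.mem⟩).1)).differentiableAt
      (by simp)).hasFDerivAt
  have he : fderiv ℝ χ z = (fderiv ℝ L.p (L.f (χ z))).comp (L.f.comp (fderiv ℝ χ z)) := by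
    refine hd.unique ((hp.comp z hF').congr_of_eventuallyEq ?_)
    filter_upwards [h2, hN] with w c1 c2 using (L.left _ ⟨c1, c2⟩).2.symm
  have hinj : Function.Injective (L.f.comp (fderiv ℝ χ z)) := by
    rw [injective_iff_map_eq_zero]
    intro a ha
    have c1 : fderiv ℝ χ z a = 0 := by rw [he, ContinuousLinearMap.comp_apply, ha, map_zero]
    have c2 := h3 i hi a (j6 a)
    rw [c1, om0_j6] at c2
    have c3 : ‖a‖ ^ 2 = 0 := by rw [← c2]; simp [dd]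
    exact norm_eq_zero.1 (pow_eq_zero_iff two_ne_zero |>.1 c3)
  let e : E6 ≃L[ℝ] E6 := ContinuousLinearEquiv.ofBijective (L.f.comp (fderiv ℝ χ z))
    (LinearMap.ker_eq_bot.2 hinj) (LinearMap.range_eq_top.2
      ((LinearMap.injective_iff_surjective
        (f := (L.f.comp (fderiv ℝ χ z) : E6 →ₗ[ℝ] E6))).1 hinj))
  have hd' : HasFDerivAt (fun w => L.f (χ w)) (e : E6 →L[ℝ] E6) z := hF'
  have hn : (∞ : WithTop ℕ∞) ≠ 0 := by simp
  set G := hF.localInverse hd' hn with hG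
  have g1 : ContDiffAt ℝ ∞ G (L.f (χ z)) := hF.to_localInverse hd' hn
  have g0 : G (L.f (χ z)) = z := hF.localInverse_apply_image hd' hn
  have g2 : ∀ᶠ w in 𝓝 (L.f (χ z)), L.f (χ (G w)) = w :=
    (hF.hasStrictFDerivAt' hd' hn).eventually_right_inverse
  have g3 : ContDiffAt ℝ ∞ (fun x => G (L.f x)) (χ z) := g1.comp (χ z) L.f.contDiff.contDiffAt
  have g4 : Tendsto (fun x => G (L.f x)) (𝓝 (χ z)) (𝓝 z) := by
    have := g3.continuousAt.tendsto
    rwa [g0] at this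
  refine ⟨fun x => G (L.f x), g3, g0, ?_⟩
  filter_upwards [L.f.continuous.continuousAt.eventually g2, g4.eventually h2, g4.eventually hN,
    L.opN.mem_nhds L.mem] with x c1 c2 c3 c4 c5
  rw [← (L.left _ ⟨c2, c3⟩).2, c1, (L.left _ ⟨c5, c4⟩).2]

open Classical in
/-- the twist of the chart `χ`, repeated in all its translates -/
def pu (χ : E6 → W × ℝ) (ρ : ℝ) (f : ℝ → ℝ) (t : ℝ) (x : W × ℝ) : W × ℝ :=
  if h : ∃ y ∈ closedBall (0 : E6) ρ, QuotP.th (χ y) = QuotP.th x then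
    x + (χ (tw f t h.choose) - χ h.choose) else x

section Pu

variable {χ : E6 → W × ℝ} {ρ : ℝ} {f : ℝ → ℝ}

theorem tw_mem (f : ℝ → ℝ) (t : ℝ) {y : E6} (hy : y ∈ closedBall (0 : E6) ρ) :
    tw f t y ∈ closedBall (0 : E6) ρ := by
  rwa [mem_closedBall_zero_iff, norm_tw, ← mem_closedBall_zero_iff]

theorem pu_on (h : QBall A S ρ χ) (t : ℝ) {y : E6} (hy : y ∈ closedBall (0 : E6) ρ) (n : ℤ) :
    pu χ ρ f t (sh n (χ y)) = sh n (χ (tw f t y)) := by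
  have e : ∃ z ∈ closedBall (0 : E6) ρ, QuotP.th (χ z) = QuotP.th (sh n (χ y)) := ⟨y, hy, (th_sh n _).symm⟩
  have e1 : e.choose = y := h.qinj e.choose_spec.1 hy (e.choose_spec.2.trans (th_sh n _))
  rw [pu, dif_pos e, e1, sh, sh]
  abel

omit [NormedSpace ℝ W] in
theorem pu_off {ρ' : ℝ} (hf : ∀ u, ρ' ≤ u → f (u ^ 2) = 0) (t : ℝ) {x : W × ℝ}
    (hx : ∀ y ∈ closedBall (0 : E6) ρ', QuotP.th (χ y) ≠ QuotP.th x) : pu χ ρ f t x = x := by
  rw [pu]
  split_ifs with e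
  · have e1 : ρ' ≤ ‖e.choose‖ := le_of_not_ge fun c =>
      hx _ (mem_closedBall_zero_iff.2 c) e.choose_spec.2
    rw [tw_out t (hf _ e1), sub_self, add_zero]
  · rfl

omit [NormedSpace ℝ W] in
theorem pu_zero (x : W × ℝ) : pu χ ρ f 0 x = x := by
  rw [pu]
  split_ifs with e
  · rw [tw_zero, sub_self, add_zero]
  · rfl

theorem pu_cases (h : QBall A S ρ χ) (t : ℝ) (x : W × ℝ) :
    (∃ y ∈ closedBall (0 : E6) ρ, QuotP.th x = QuotP.th (χ y) ∧ QuotP.th (pu χ ρ f t x) = QuotP.th (χ (tw f t y))) ∨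
    ((∀ y ∈ closedBall (0 : E6) ρ, QuotP.th (χ y) ≠ QuotP.th x) ∧ pu χ ρ f t x = x) := by
  by_cases e : ∃ y ∈ closedBall (0 : E6) ρ, QuotP.th (χ y) = QuotP.th x
  · obtain ⟨y, hy, e⟩ := e
    obtain ⟨n, rfl⟩ := th_eq e.symm
    exact Or.inl ⟨y, hy, th_sh _ _, by rw [pu_on h t hy, th_sh]⟩
  · exact Or.inr ⟨fun y hy c => e ⟨y, hy, c⟩, by rw [pu, dif_neg e]⟩

theorem pu_inj (h : QBall A S ρ χ) (t : ℝ) {x x' : W × ℝ}
    (e : QuotP.th (pu χ ρ f t x) = QuotP.th (pu χ ρ f t x')) : QuotP.th x = QuotP.th x' := by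
  rcases pu_cases (f := f) h t x with ⟨y, a1, a2, a3⟩ | ⟨a1, a2⟩ <;>
    rcases pu_cases (f := f) h t x' with ⟨z, b1, b2, b3⟩ | ⟨b1, b2⟩
  · rw [a2, b2, tw_inj f t (h.qinj (tw_mem f t a1) (tw_mem f t b1) ((a3.symm.trans e).trans b3))]
  · exact absurd ((a3.symm.trans e).trans (congrArg QuotP.th b2)) (b1 _ (tw_mem f t a1))
  · exact absurd ((b3.symm.trans e.symm).trans (congrArg QuotP.th a2)) (a1 _ (tw_mem f t b1))
  · rwa [a2, b2] at e

/-- the local description of the twist -/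
theorem pu_loc [FiniteDimensional ℝ W] (H : Hy A S) (hR : LocRetr S) (h : QBall A S ρ χ)
    {ρ' : ℝ} (hρ : ρ' < ρ) (h0 : 0 < ρ) (hf : ∀ u, ρ' ≤ u → f (u ^ 2) = 0) (x : W × ℝ) :
    (∀ᶠ x' in 𝓝 x, ∀ t, pu χ ρ f t x' = x') ∨
    ∃ (χ' : E6 → W × ℝ) (κ : W × ℝ → E6), A.Ball S ρ χ' ∧ ContDiffAt ℝ ∞ κ x ∧ ‖κ x‖ < ρ ∧
      ∀ᶠ x' in 𝓝 x, x' ∈ S → χ' (κ x') = x' ∧ ∀ t, pu χ ρ f t x' = χ' (tw f t (κ x')) := by
  by_cases e : QuotP.th x ∈ (fun y => QuotP.th (χ y)) '' closedBall 0 ρ'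
  · obtain ⟨z, hz, e⟩ := e
    obtain ⟨n, rfl⟩ := th_eq (Eq.symm e)
    have hz' : ‖z‖ < ρ := (mem_closedBall_zero_iff.1 hz).trans_lt hρ
    obtain ⟨κ, k1, k2, k3⟩ := ball_inv H hR (ball_sh H h0 h.ball n) hz'
    refine Or.inr ⟨_, κ, ball_sh H h0 h.ball n, k1, by rwa [k2], ?_⟩
    have k4 : ∀ᶠ x' in 𝓝 (sh n (χ z)), ‖κ x'‖ < ρ :=
      k1.continuousAt.norm.eventually (gt_mem_nhds (by simpa only [k2] using hz'))
    filter_upwards [k3, k4] with x' c1 c2 c3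
    refine ⟨c1 c3, fun t => ?_⟩
    rw [← pu_on h t (mem_closedBall_zero_iff.2 c2.le) n, c1 c3]
  · have c1 : IsCompact ((fun y => QuotP.th (χ y)) '' closedBall 0 ρ') :=
      (isCompact_closedBall _ _).image_of_continuousOn
        (contDiff_th.continuous.comp_continuousOn
          (h.ball.sm.continuousOn.mono (closedBall_subset_closedBall hρ.le)))
    refine Or.inl ?_
    filter_upwards [contDiff_th.continuous.continuousAt.eventually
      (c1.isClosed.isOpen_compl.mem_nhds e)] with x' c2 t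
    exact pu_off hf t fun y hy c => c2 ⟨y, hy, c⟩

theorem pu_path [FiniteDimensional ℝ W] (H : Hy A S) (hR : LocRetr S) (h : QBall A S ρ χ)
    {ρ' : ℝ} (hρ : ρ' < ρ) (h0 : 0 < ρ) (hs : ContDiff ℝ ∞ f) (hf : ∀ u, ρ' ≤ u → f (u ^ 2) = 0)
    {r : ℝ} (hr : 0 < r) {ψ : E6 → W × ℝ} (hψ : QBall A S r ψ) :
    ContDiffOn ℝ ∞ (fun q : ℝ × E6 => pu χ ρ f q.1 (ψ q.2)) (univ ×ˢ closedBall 0 r) ∧
      ∀ t, QBall A S r fun y => pu χ ρ f t (ψ y) := by
  have loc : ∀ y ∈ closedBall (0 : E6) r,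
      (∀ᶠ y' in 𝓝[closedBall 0 r] y, ∀ t, pu χ ρ f t (ψ y') = ψ y') ∨
      ∃ (χ' : E6 → W × ℝ) (g : E6 → E6), A.Ball S ρ χ' ∧
        ContDiffWithinAt ℝ ∞ g (closedBall 0 r) y ∧ ‖g y‖ < ρ ∧
        ∀ᶠ y' in 𝓝[closedBall 0 r] y, ψ y' = χ' (g y') ∧
          ∀ t, pu χ ρ f t (ψ y') = χ' (tw f t (g y')) := fun y hy => by
    have hc : ContinuousWithinAt ψ (closedBall 0 r) y := hψ.ball.sm.continuousOn y hy
    rcases pu_loc H hR h hρ h0 hf (ψ y) with a | ⟨χ', κ, a1, a2, a3, a4⟩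
    · exact Or.inl (hc.eventually a)
    · refine Or.inr ⟨χ', fun w => κ (ψ w), a1, a2.comp_contDiffWithinAt y (hψ.ball.sm y hy),
        a3, ?_⟩
      filter_upwards [hc.eventually a4, self_mem_nhdsWithin] with w c1 c2
      exact ⟨(c1 (hψ.ball.mem c2)).1.symm, (c1 (hψ.ball.mem c2)).2⟩
  have sm : ContDiffOn ℝ ∞ (fun q : ℝ × E6 => pu χ ρ f q.1 (ψ q.2))
      (univ ×ˢ closedBall 0 r) := fun q hq => by
    have hm : MapsTo Prod.snd (univ ×ˢ closedBall (0 : E6) r : Set (ℝ × E6)) (closedBall 0 r) :=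
      fun _ c => c.2
    have ht : Tendsto Prod.snd (𝓝[univ ×ˢ closedBall (0 : E6) r] q) (𝓝[closedBall 0 r] q.2) :=
      continuous_snd.continuousWithinAt.tendsto_nhdsWithin hm
    rcases loc q.2 hq.2 with a | ⟨χ', g, a1, a2, a3, a4⟩
    · refine ((hψ.ball.sm q.2 hq.2).comp q contDiffWithinAt_snd hm).congr_of_eventuallyEq_of_mem
        ?_ hq
      filter_upwards [ht.eventually a] with q' c using c q'.1
    · have b1 : ContDiffWithinAt ℝ ∞ (fun q' : ℝ × E6 => (q'.1, g q'.2))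
          (univ ×ˢ closedBall 0 r) q :=
        contDiffWithinAt_fst.prodMk (a2.comp q contDiffWithinAt_snd hm)
      have b2 : ContDiffWithinAt ℝ ∞ (fun q' : ℝ × E6 => tw f q'.1 (g q'.2))
          (univ ×ˢ closedBall 0 r) q :=
        ContDiffAt.comp_contDiffWithinAt (g := fun q : ℝ × E6 => tw f q.1 q.2)
          (f := fun q' : ℝ × E6 => (q'.1, g q'.2)) q (cd_tw hs).contDiffAt b1
      have b3 := (ball_int a1 (z := tw f q.1 (g q.2)) (by rwa [norm_tw])).1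
      refine (ContDiffAt.comp_contDiffWithinAt (g := χ')
        (f := fun q' : ℝ × E6 => tw f q'.1 (g q'.2)) q b3 b2).congr_of_eventuallyEq_of_mem ?_ hq
      filter_upwards [ht.eventually a4] with q' c using c.2 q'.1
  have qi : ∀ t, InjOn (fun y => QuotP.th (pu χ ρ f t (ψ y))) (closedBall 0 r) :=
    fun t y hy z hz e => hψ.qinj hy hz (pu_inj h t e)
  refine ⟨sm, fun t => ⟨⟨?_, fun y hy => ?_, fun y hy z hz e => qi t hy hz (congrArg QuotP.th e),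
    fun y hy i hi a b => ?_⟩, qi t⟩⟩
  · exact ContDiffOn.comp (g := fun q : ℝ × E6 => pu χ ρ f q.1 (ψ q.2))
      (f := fun y : E6 => (t, y)) sm (contDiff_const.prodMk contDiff_id).contDiffOn
      fun y hy => ⟨mem_univ _, hy⟩
  · rcases loc y hy with a | ⟨χ', g, a1, -, a3, a4⟩
    · have c := (a.self_of_nhdsWithin hy) t
      simpa only [c] using hψ.ball.mem hy
    · have c := (a4.self_of_nhdsWithin hy).2 t
      simpa only [c] using a1.mem (tw_mem f t (mem_closedBall_zero_iff.2 a3.le))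
  · have hu := uniq hr y hy
    rcases loc y hy with c | ⟨χ', g, a1, a2, a3, a4⟩
    · have c1 : (fun y => pu χ ρ f t (ψ y)) =ᶠ[𝓝[closedBall 0 r] y] ψ := c.mono fun w d => d t
      have c2 : pu χ ρ f t (ψ y) = ψ y := c1.self_of_nhdsWithin hy
      rw [c1.fderivWithin_eq c2]
      rw [c2] at hi ⊢
      exact hψ.ball.pull y hy i hi a b
    · obtain ⟨k, hk⟩ := H.pre.cov _ (hψ.ball.mem hy)
      obtain ⟨b1, -, b2⟩ := ball_int a1 a3
      obtain ⟨b3, -, b4⟩ := ball_int a1 (z := tw f t (g y)) (by rwa [norm_tw])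
      have d0 := (a2.differentiableWithinAt (by simp)).hasFDerivWithinAt
      have d1 := (b1.differentiableAt (by simp)).hasFDerivAt.comp_hasFDerivWithinAt y d0
      have d2 := (b3.differentiableAt (by simp)).hasFDerivAt.comp_hasFDerivWithinAt y
        (((cd_tw' hs t).differentiable (by simp) (g y)).hasFDerivAt.comp_hasFDerivWithinAt y d0)
      have c1 : ψ =ᶠ[𝓝[closedBall 0 r] y] χ' ∘ g := a4.mono fun w d => d.1
      have c2 : (fun y => pu χ ρ f t (ψ y)) =ᶠ[𝓝[closedBall 0 r] y] χ' ∘ tw f t ∘ g :=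
        a4.mono fun w d => d.2 t
      have c3 : ψ y = χ' (g y) := c1.self_of_nhdsWithin hy
      have c4 : pu χ ρ f t (ψ y) = χ' (tw f t (g y)) := c2.self_of_nhdsWithin hy
      rw [← hψ.ball.pull y hy k hk a b, c1.fderivWithin_eq c3, c2.fderivWithin_eq c4,
        d1.fderivWithin hu, d2.fderivWithin hu]
      rw [c4] at hi ⊢
      rw [c3] at hk ⊢
      simp only [ContinuousLinearMap.comp_apply]
      rw [b4 i hi, b2 k hk, om0_tw hs]

end Pu

/-- a ball centred at `χ a` can be moved to a ball centred at `χ (-a)` -/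
theorem push [FiniteDimensional ℝ W] (H : Hy A S) (hR : LocRetr S) {χ : E6 → W × ℝ} {ρ : ℝ}
    (h : QBall A S ρ χ) {a : E6} (ha : ‖a‖ < ρ) {r : ℝ} (hr : 0 < r) {ψ : E6 → W × ℝ}
    (hψ : QBall A S r ψ) (e : ψ 0 = χ a) :
    ∃ ψ', QBall A S r ψ' ∧ Pth (QBall A S r) r ψ ψ' ∧ ψ' 0 = χ (-a) := by
  obtain ⟨f, ρ', f1, f2, f3, f4⟩ := exists_profile (norm_nonneg a) ha
  obtain ⟨a1, a2⟩ := pu_path H hR h f2 ((norm_nonneg a).trans_lt ha) f1 f4 hr hψ
  refine ⟨_, a2 1, ⟨_, a1.mono (prod_mono (subset_univ _) subset_rfl), fun t _ => a2 t,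
    fun y _ => pu_zero _, fun y _ => rfl⟩, ?_⟩
  have := pu_on (f := f) h 1 (mem_closedBall_zero_iff.2 ha.le) 0
  rw [tw_neg f3, sh_zero, sh_zero] at this
  simpa only [e] using this

end

end Pool.Agent.MP_9758ca_gt.Bas
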