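import Pool.Agent.MP_9758ca_gt.QD
import Pool.Agent.MP_9758ca_gt.Bas.Push

/-!
Based ball embeddings, part 4: thin Darboux charts along the vertical line through the walls.
-/

open scoped Topology ContDiff ComplexConjugate
open Set Metric Filter Complex

namespace Pool.Agent.MP_9758ca_gt.Bas

open GballP

noncomputable section

theorem BI_mono {b₀ : ℝ} (hb : 0 < b₀) : StrictMono (BI b₀) :=
  strictMono_of_deriv_pos fun t => by rw [(hasDerivAt_BI b₀ t).deriv]; exact bb_pos hb t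

theorem BI_surj {b₀ : ℝ} (hb : 0 < b₀) : Function.Surjective (BI b₀) := by
  have hm : 0 < min b₀ 4 := lt_min hb (by norm_num)
  have h1 : ∀ t, min b₀ 4 ≤ bb b₀ t := fun t => by
    obtain ⟨c1, c2⟩ := stp_mem (1 / 100) (1 / 25) (t ^ 2)
    have c3 := min_le_left b₀ 4
    have c4 := min_le_right b₀ 4
    unfold bb
    nlinarith [mul_nonneg c1 (sub_nonneg.2 c3), mul_nonneg (sub_nonneg.2 c2) (sub_nonneg.2 c4)]
  have hd : ∀ t, HasDerivAt (fun t => BI b₀ t - min b₀ 4 * t) (bb b₀ t - min b₀ 4) t := fun t =>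
    ((hasDerivAt_BI b₀ t).sub ((hasDerivAt_id t).const_mul (min b₀ 4))).congr_deriv (by simp)
  have h2 : Monotone fun t => BI b₀ t - min b₀ 4 * t :=
    monotone_of_deriv_nonneg (fun t => (hd t).differentiableAt) fun t => by
      rw [(hd t).deriv]; exact sub_nonneg.2 (h1 t)
  have h0 : BI b₀ 0 = 0 := by simp [BI]
  refine (contDiff_BI b₀).continuous.surjective ?_ ?_
  · refine tendsto_atTop_mono' _ ?_ (tendsto_id.const_mul_atTop hm)
    filter_upwards [eventually_ge_atTop (0 : ℝ)] with t ht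
    have := h2 ht
    simp only [h0, mul_zero, sub_zero] at this
    exact sub_nonneg.1 this
  · refine tendsto_atBot_mono' _ ?_ (tendsto_id.const_mul_atBot hm)
    filter_upwards [eventually_le_atBot (0 : ℝ)] with t ht
    have := h2 ht
    simp only [h0, mul_zero, sub_zero] at this
    exact sub_nonpos.1 this

theorem exists_G {b₀ : ℝ} (hb : 0 < b₀) : ∃ G : ℝ → ℝ, ContDiff ℝ ∞ G ∧ StrictMono G ∧
    (∀ t, G (BI b₀ t) = t) ∧ ∀ u, bb b₀ (G u) * deriv G u = 1 := by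
  let e := (BI_mono hb).orderIsoOfSurjective _ (BI_surj hb)
  have h1 : ContDiff ℝ ∞ e.symm := e.toHomeomorph.contDiff_symm_deriv (f' := bb b₀)
    (fun t => (bb_pos hb t).ne') (hasDerivAt_BI b₀) (contDiff_BI b₀)
  refine ⟨e.symm, h1, e.symm.strictMono, e.symm_apply_apply, fun u => ?_⟩
  have h2 := (hasDerivAt_BI b₀ (e.symm u)).comp u (h1.differentiable (by simp) u).hasDerivAt
  have h3 : BI b₀ ∘ e.symm = id := funext e.apply_symm_apply
  rw [h3] at h2
  exact h2.unique (hasDerivAt_id u)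

theorem exists_big : ∃ ρ : ℝ, 0 < ρ ∧ ∀ y : E6, ‖y‖ ≤ ρ → Real.pi * sq4 y < 1 ∧
    ∀ j a T, 1 / 10000000 ≤ nsq (NN j (nb y) a T) := by
  have h0 : Real.pi * sq4 0 < 1 := by simp [sq4]
  let φ : C3 → ℝ := fun n => ‖cub n‖ ^ 2 * ((‖n 0‖ ^ 2) ^ 3 + (‖n 1‖ ^ 2) ^ 3 + (‖n 2‖ ^ 2) ^ 3)
  have h1 : Continuous φ := by
    unfold φ cub
    fun_prop
  have h2 : nb 0 = ![1, 0, 0] := by
    funext i
    fin_cases i
    · simp [nb, sq4]
    · simp [nb, cz, Complex.ext_iff]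
    · simp [nb, cz, Complex.ext_iff]
  have h3 : 1 / 10000000 < φ (nb 0) := by
    rw [h2]
    simp [φ, cub]
    norm_num
  have h4 := (h1.continuousAt.comp (cd_nb h0).continuousAt).eventually (lt_mem_nhds h3)
  obtain ⟨ρ, c1, c2⟩ := nhds_basis_closedBall.eventually_iff.1 (h4.and (good_nhds h0))
  refine ⟨ρ, c1, fun y hy => ?_⟩
  obtain ⟨c3, c4⟩ := c2 (mem_closedBall_zero_iff.2 hy)
  refine ⟨c4, fun j a T => ?_⟩
  rw [NN, nsq_nu, nsq_nb c4, ofReal_one, one_pow, div_one]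
  exact c3.le.trans (le_add_of_nonneg_right (sq_nonneg _))

/-- rescaling of the circle coordinate -/
def dl (c : ℝ) (y : E6) : E6 := !₂[y 0, y 1, y 2, y 3, c * y 4, 0]

theorem sq4_dl (c : ℝ) (y : E6) : sq4 (dl c y) = sq4 y := by simp [sq4, dl]

theorem nb_dl (c : ℝ) (y : E6) : nb (dl c y) = nb y := by simp [nb, sq4, cz, dl]

/-- the circle coordinate of the chart -/
def ac (c : ℝ) (y : E6) : ℂ := ab (dl c y)

theorem ac_eq (c : ℝ) : ac c = fun y : E6 => -exp (Real.pi * I * c * y 4) := by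
  funext y
  simp [ac, ab, dl, mul_assoc]

theorem hf_ac (c : ℝ) (y : E6) : HasFDerivAt (ac c) ((mulC (ac c y * (Real.pi * I * c))).comp
    (ofRealCLM.comp (co 4))) y := by
  have h1 : HasFDerivAt (fun y : E6 => Real.pi * I * c * (y 4 : ℂ))
      ((mulC (Real.pi * I * c)).comp (ofRealCLM.comp (co 4))) y :=
    ((mulC (Real.pi * I * c)).comp (ofRealCLM.comp (co 4))).hasFDerivAt
  rw [ac_eq]
  refine h1.cexp.neg.congr_fderiv ?_
  ext v
  simp [mulC_apply, mul_assoc]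

theorem cd_ac (c : ℝ) : ContDiff ℝ ∞ (ac c) := by
  rw [ac_eq]
  exact (contDiff_const.mul (ofRealCLM.contDiff.comp (cd_co 4))).cexp.neg

/-- the chart -/
def ch (c : ℝ) (T : ℝ → ℝ) (y : E6) : VV := pt (nb y) (ac c y) (T (y 5)) 0

section

variable {c : ℝ} {T : ℝ → ℝ} {y : E6}

theorem cd_ch (hT : ContDiff ℝ ∞ T) (h : Real.pi * sq4 y < 1) : ContDiffAt ℝ ∞ (ch c T) y :=
  (((contDiffAt_prj (nb_ne h)).comp y (cd_nb h)).prodMk
    ((cd_ac c).contDiffAt.prodMk contDiffAt_const)).prodMk (hT.comp (cd_co 5)).contDiffAt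

theorem ch_clm {W : Type} [NormedAddCommGroup W] [NormedSpace ℝ W] (L : VV →L[ℝ] W)
    (hT : ContDiff ℝ ∞ T) (h : Real.pi * sq4 y < 1) (a : E6) :
    L (fderiv ℝ (ch c T) y a) = fderiv ℝ (fun z => L (ch c T z)) y a :=
  (DFunLike.congr_fun (L.hasFDerivAt.comp y
    ((cd_ch hT h).differentiableAt (by simp)).hasFDerivAt).fderiv a).symm

theorem ch_t (hT : ContDiff ℝ ∞ T) (h : Real.pi * sq4 y < 1) (a : E6) :
    (fderiv ℝ (ch c T) y a).2 = deriv T (y 5) * a 5 := by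
  have h1 := (hT.differentiable (by simp) (y 5)).hasDerivAt.comp_hasFDerivAt y (hf_co 5 y)
  exact (ch_clm tL hT h a).trans ((DFunLike.congr_fun h1.fderiv a).trans (by simp))

theorem ch_s (hT : ContDiff ℝ ∞ T) (h : Real.pi * sq4 y < 1) (a : E6) :
    ds (ch c T y) (fderiv ℝ (ch c T) y a) = c * a 4 / 2 := by
  have h1 : aL (fderiv ℝ (ch c T) y a) = ac c y * (Real.pi * I * c * a 4) :=
    (ch_clm aL hT h a).trans ((DFunLike.congr_fun (hf_ac c y).fderiv a).trans
      (by simp [mulC_apply, mul_assoc]))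
  have h2 : aL (ch c T y) = ac c y := rfl
  rw [ds_apply, h1, h2, mul_div_cancel_left₀ _ (show ac c y ≠ 0 from ab_ne _)]
  have := Real.pi_pos
  simp
  field_simp

theorem ch_pull (b₀ ε : ℝ) (t : Bool) (hT : ContDiff ℝ ∞ T) (h : Real.pi * sq4 y < 1)
    (hb : ∀ j a T, 1 / 10000000 ≤ nsq (NN j (nb y) a T))
    (h5 : ∀ j : ℤ, |T (y 5) - j| < 3 / 4 → bb b₀ (T (y 5) - j) * (c * deriv T (y 5)) = 2)
    (i : Idx) (hi : ch c T y ∈ dom i) (a b : E6) :
    dd ((atl b₀ ε t).l i) (ch c T y) (fderiv ℝ (ch c T) y a) (fderiv ℝ (ch c T) y b) =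
      om0 a b := by
  rw [dd_atl b₀ ε t hi, dd_lamB b₀ i hi.2.1, ch_s hT h, ch_s hT h, ch_t hT h, ch_t hT h]
  obtain ⟨m, k, j⟩ := i
  have hk : (ch c T y).1.1 k k ≠ 0 := hi.1
  have hk' : nb y k ≠ 0 := prj_diag_ne.1 hk
  have hN : NA k j (ch c T y) = NN j (nb y) (ac c y) (T (y 5)) :=
    (pt_chart hk' j (ac c y) (T (y 5)) 0).2.2.2.2.2.2
  have hbig : 1 / 10000000 ≤ nsq (NA k j (ch c T y)) := by
    rw [hN]
    exact hb _ _ _
  have hm : m = 0 := by
    have h4 := hi.2.2.2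
    fin_cases m
    · rfl
    all_goals
      have := h4.1
      change nsq (NA k j (ch c T y)) < _ at this
      linarith
  subst hm
  have hS : dd (lamS (0, k, j)) (ch c T y) (fderiv ℝ (ch c T) y a)
      (fderiv ℝ (ch c T) y b) = 0 := by
    have h1 : ∀ᶠ x in 𝓝 (ch c T y), lamS (0, k, j) x = (fun _ => 0 : F1 VV) x := by
      have h2 : ContinuousAt (fun x => nsq (NA k j x)) (ch c T y) :=
        contDiff_nsq.continuous.continuousAt.comp (contDiffAt_XiA j hk).2.continuousAt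
      filter_upwards [continuousAt_const.eventually_lt h2
        (show (1 : ℝ) / 100000000 < _ by linarith)] with x hx
      have h3 : cut (nsq (NA k j x)) = 0 := stp_zero (by norm_num) hx.le
      change cut (nsq (NA k j x)) • pb (NA k j) th x = 0
      rw [h3, zero_smul]
    rw [dd_congr h1]
    simp [dd]
  have hH : dd (lamH (0, k, j)) (ch c T y) (fderiv ℝ (ch c T) y a) (fderiv ℝ (ch c T) y b) =
      a 0 * b 1 - a 1 * b 0 + (a 2 * b 3 - a 3 * b 2) := by
    refine (dd_th_clm (colL k) (colL_ne hk) _ _).trans ?_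
    rw [ch_clm (colL k) hT h, ch_clm (colL k) hT h, ← dd_nb h]
    have hd := (cd_nb h).differentiableAt (by simp)
    have ht : ∀ w : E6, w ∈ tan univ y := fun w => by
      simpa using fderiv_mem_tan (S := univ) (g := id) differentiableAt_id
        (Eventually.of_forall fun _ => mem_univ _) w
    refine dd_th_lift (S := univ) (mem_univ y) (c := fun z => conj (nb z k)) hd
      ((colL k).differentiableAt.comp y ((cd_ch hT h).differentiableAt (by simp)))
      (conjCLE.differentiableAt.comp y (differentiableAt_pi.1 hd k)) (nb_ne h)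
      (by simpa using hk') ?_ (ht a) (ht b)
    filter_upwards [good_nhds h] with z hz _
    have := prj_col (nb z) k
    rw [nsq_nb hz, ofReal_one, div_one] at this
    exact this
  have h4 : bb b₀ ((ch c T y).2 - (j : ℝ)) * (c * deriv T (y 5)) = 2 := h5 j hi.2.2.1
  rw [hS, hH, om0]
  linear_combination (a 4 * b 5 - a 5 * b 4) / 2 * h4

theorem ch_mem (h : Real.pi * sq4 y < 1) (hb : ∀ j a T, 1 / 10000000 ≤ nsq (NN j (nb y) a T)) :
    ch c T y ∈ SS := by
  have h1 := hb (round (T (y 5))) (ac c y) (T (y 5))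
  have h2 : cut (nsq (NN (round (T (y 5))) (nb y) (ac c y) (T (y 5)))) = 0 :=
    stp_zero (by norm_num) (by linarith)
  refine Or.inl ⟨nb y, ac c y, T (y 5), nb_ne h, norm_ab _, fun e => ?_, ?_⟩
  · rw [nsq_eq_zero.2 e] at h1
    norm_num at h1
  · rw [lift, RR, h2, zero_smul, ch]

theorem ch_inj {z : E6} (hc : c ≠ 0) (hy : Real.pi * sq4 y < 1) (hz : Real.pi * sq4 z < 1)
    (hy4 : |c * y 4| < 3 / 5) (hz4 : |c * z 4| < 3 / 5) (e : (ch c T y).1 = (ch c T z).1)
    (e5 : y 5 = z 5) : y = z := by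
  have h1 : ball0 0 (dl c y) = ball0 0 (dl c z) := by
    rw [ball0_eq, ball0_eq, nb_dl, nb_dl]
    exact Prod.ext e (by simp [pt, tb, dl])
  have h2 := GballP.inj 0 (by rwa [sq4_dl]) (by rwa [sq4_dl]) hy4 hz4 h1
  have h3 : ∀ i, dl c y i = dl c z i := fun i => by rw [h2]
  ext i
  fin_cases i
  · exact h3 0
  · exact h3 1
  · exact h3 2
  · exact h3 3
  · exact mul_left_cancel₀ hc (h3 4)
  · exact e5

theorem ch_axis (s : ℝ) : ch c T (EuclideanSpace.single 5 s) = vert (T s) := by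
  have h1 : nb (EuclideanSpace.single 5 s) = ![1, 0, 0] := by
    funext i
    fin_cases i
    · simp [nb, sq4]
    · simp [nb, cz, Complex.ext_iff]
    · simp [nb, cz, Complex.ext_iff]
  rw [ch, h1, vert, ac_eq]
  simp

end

theorem abs_co (y : E6) (i : Fin 6) : |y i| ≤ ‖y‖ := by
  simpa using PiLp.norm_apply_le y i

theorem chart {b₀ : ℝ} (hb : 0 < b₀) (ε : ℝ) (j : ℤ) : ∃ (ρ : ℝ) (χ : E6 → VV) (a : E6),
    QBall (atl b₀ ε true) SS ρ χ ∧ ‖a‖ < ρ ∧ χ a = vert (j - 2⁻¹) ∧ χ (-a) = vert (j + 2⁻¹) := by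
  obtain ⟨G, g1, g2, g3, g4⟩ := exists_G hb
  obtain ⟨ρ₀, r0, r1⟩ := exists_big
  have m1 : BI b₀ (-(7 / 10)) < BI b₀ (-2⁻¹) := BI_mono hb (by norm_num)
  have m2 : BI b₀ (-2⁻¹) < BI b₀ 2⁻¹ := BI_mono hb (by norm_num)
  have m3 : BI b₀ 2⁻¹ < BI b₀ (7 / 10) := BI_mono hb (by norm_num)
  obtain ⟨u, hu⟩ : ∃ u, u = (BI b₀ (-2⁻¹) + BI b₀ 2⁻¹) / 2 := ⟨_, rfl⟩
  obtain ⟨d, hd⟩ : ∃ d, d = (BI b₀ 2⁻¹ - BI b₀ (-2⁻¹)) / 2 := ⟨_, rfl⟩
  obtain ⟨D, d1, d2, d3⟩ : ∃ D, d < D ∧ u + D ≤ BI b₀ (7 / 10) ∧ BI b₀ (-(7 / 10)) ≤ u - D :=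
    ⟨min (BI b₀ (7 / 10) - u) (u - BI b₀ (-(7 / 10))), lt_min (by linarith) (by linarith),
      by linarith [min_le_left (BI b₀ (7 / 10) - u) (u - BI b₀ (-(7 / 10)))],
      by linarith [min_le_right (BI b₀ (7 / 10) - u) (u - BI b₀ (-(7 / 10)))]⟩
  have d0 : 0 < d := by linarith
  have D0 : 0 < D := d0.trans d1
  obtain ⟨ρ, p0, p1, p2, p3⟩ : ∃ ρ : ℝ, 0 < ρ ∧ ρ ≤ ρ₀ ∧ ρ ≤ 1 ∧ ρ ≤ D / 4 :=
    ⟨min ρ₀ (min 1 (D / 4)), lt_min r0 (lt_min one_pos (by linarith)), min_le_left _ _,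
      (min_le_right _ _).trans (min_le_left _ _), (min_le_right _ _).trans (min_le_right _ _)⟩
  let T : ℝ → ℝ := fun s => j + G (u + D / ρ * s)
  have hT : ContDiff ℝ ∞ T :=
    contDiff_const.add (g1.comp (contDiff_const.add (contDiff_const.mul contDiff_id)))
  have hT' : ∀ s, deriv T s = deriv G (u + D / ρ * s) * (D / ρ) := fun s => by
    have a1 : HasDerivAt (fun s => u + D / ρ * s) (D / ρ) s := by
      simpa using ((hasDerivAt_id s).const_mul (D / ρ)).const_add u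
    exact (((g1.differentiable (by simp) _).hasDerivAt.comp s a1).const_add (j : ℝ)).deriv
  have hr : ∀ y ∈ closedBall (0 : E6) ρ, |T (y 5) - j| ≤ 7 / 10 := fun y hy => by
    have a1 := abs_le.1 ((abs_co y 5).trans (mem_closedBall_zero_iff.1 hy))
    have a2 : D / ρ * ρ = D := div_mul_cancel₀ _ p0.ne'
    have a3 : 0 < D / ρ := div_pos D0 p0
    have a4 := g2.monotone (show u + D / ρ * y 5 ≤ BI b₀ (7 / 10) by nlinarith [a1.2])
    have a5 := g2.monotone (show BI b₀ (-(7 / 10)) ≤ u + D / ρ * y 5 by nlinarith [a1.1])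
    rw [g3] at a4 a5
    simp only [T, add_sub_cancel_left]
    exact abs_le.2 ⟨a5, a4⟩
  have hg : ∀ y ∈ closedBall (0 : E6) ρ, _ := fun y hy =>
    r1 y ((mem_closedBall_zero_iff.1 hy).trans p1)
  have h4 : ∀ y ∈ closedBall (0 : E6) ρ, |2 * ρ / D * y 4| < 3 / 5 := fun y hy => by
    have a1 := (abs_co y 4).trans (mem_closedBall_zero_iff.1 hy)
    have a2 : 2 * ρ / D ≤ 1 / 2 := by
      rw [div_le_iff₀ D0]
      linarith
    have a3 : 0 < 2 * ρ / D := by positivity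
    rw [abs_mul, abs_of_pos a3]
    nlinarith [abs_nonneg (y 4)]
  have qi : InjOn (fun y => QuotP.th (ch (2 * ρ / D) T y)) (closedBall 0 ρ) := fun y hy z hz e => by
    obtain ⟨n, hn⟩ := QuotP.th_eq_iff.1 e
    have e1 := abs_le.1 (hr y hy)
    have e2 := abs_le.1 (hr z hz)
    have e3 : T (y 5) = T (z 5) + 2 * n := congrArg Prod.snd hn
    have e4 : (n : ℝ) < 1 := by linarith [e1.2, e2.1]
    have e5 : (-1 : ℝ) < n := by linarith [e1.1, e2.2]
    have e6 : n = 0 := by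
      have : n < 1 := by exact_mod_cast e4
      have : -1 < n := by exact_mod_cast e5
      omega
    rw [e6, Int.cast_zero, mul_zero, add_zero] at e3
    have e7 : (ch (2 * ρ / D) T y).1 = (ch (2 * ρ / D) T z).1 := by rw [hn]
    exact ch_inj (by positivity) (hg y hy).1 (hg z hz).1 (h4 y hy) (h4 z hz)
      e7 (mul_left_cancel₀ (div_pos D0 p0).ne'
        (add_left_cancel (g2.injective (add_left_cancel e3))))
  refine ⟨ρ, ch (2 * ρ / D) T, EuclideanSpace.single 5 (-(d * ρ / D)),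
    ⟨⟨fun y hy => (cd_ch hT (hg y hy).1).contDiffWithinAt, fun y hy => ch_mem (hg y hy).1 (hg y hy).2,
      fun y hy z hz e => qi hy hz (congrArg QuotP.th e), fun y hy i hi a b => ?_⟩, qi⟩, ?_, ?_, ?_⟩
  · rw [((cd_ch hT (hg y hy).1).differentiableAt (by simp)).fderivWithin (QuotP.uniq p0 y hy)]
    refine ch_pull b₀ ε true hT (hg y hy).1 (hg y hy).2 (fun j' hj => ?_) i hi a b
    have a1 : bb b₀ (T (y 5) - j') = bb b₀ (T (y 5) - j) := by
      have a2 := abs_le.1 (hr y hy)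
      have a3 := abs_lt.1 hj
      rcases lt_trichotomy j' j with c | rfl | c
      · have : (j' : ℝ) + 1 ≤ j := by exact_mod_cast c
        rw [bb_four (le_abs.2 (Or.inl (by linarith))), bb_four (le_abs.2 (Or.inr (by linarith)))]
      · rfl
      · have : (j : ℝ) + 1 ≤ j' := by exact_mod_cast c
        rw [bb_four (le_abs.2 (Or.inr (by linarith))), bb_four (le_abs.2 (Or.inl (by linarith)))]
    have a2 := g4 (u + D / ρ * y 5)
    have a3 : 2 * ρ / D * (D / ρ) = 2 := by field_simp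
    rw [a1, hT']
    simp only [T, add_sub_cancel_left]
    linear_combination (2 * ρ / D * (D / ρ)) * a2 + a3
  · rw [PiLp.norm_single, norm_neg, Real.norm_eq_abs, abs_of_pos (by positivity),
      div_lt_iff₀ D0]
    nlinarith
  · have a1 : u + D / ρ * -(d * ρ / D) = BI b₀ (-2⁻¹) := by
      have : D / ρ * (d * ρ / D) = d := by field_simp
      linarith
    rw [ch_axis]
    simp only [T, a1, g3, sub_eq_add_neg]
  · have a1 : u + D / ρ * (d * ρ / D) = BI b₀ 2⁻¹ := by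
      have : D / ρ * (d * ρ / D) = d := by field_simp
      linarith
    have a2 : -EuclideanSpace.single (5 : Fin 6) (-(d * ρ / D)) =
        EuclideanSpace.single 5 (d * ρ / D) := by
      ext i
      by_cases c : i = 5 <;> simp [c]
    rw [a2, ch_axis]
    simp only [T, a1, g3]

end

end Pool.Agent.MP_9758ca_gt.Bas
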