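import Pool.Agent.MP_9758ca_gt.Bas.Push

/-!
Based ball embeddings, part 3: passage to the closed quotient.
-/

open scoped Topology ContDiff Manifold
open Set Metric Filter

namespace Pool.Agent.MP_9758ca_gt.Bas

open QuotP

noncomputable section

/-- isotopy through embeddings that send the centre to `p` -/
def IsotopicAt {M : ClosedMfd 6} (σ : TwoForm M) (r : ℝ) (p : M.carrier)
    (ψ₀ ψ₁ : E6 → M.carrier) : Prop :=
  ∃ Ψ : ℝ × E6 → M.carrier,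
    ContMDiffOn (𝓘(ℝ, ℝ).prod (𝓡 6)) (𝓡 6) ∞ Ψ (Set.Icc 0 1 ×ˢ Metric.closedBall 0 r) ∧
    (∀ t ∈ Set.Icc (0 : ℝ) 1, IsBallEmb σ r (fun y => Ψ (t, y)) ∧ Ψ (t, 0) = p) ∧
    (∀ y ∈ Metric.closedBall (0 : E6) r, Ψ (0, y) = ψ₀ y) ∧
    (∀ y ∈ Metric.closedBall (0 : E6) r, Ψ (1, y) = ψ₁ y)

/-- the final statement -/
def FinalB : Prop :=
  ∃ (M : ClosedMfd 6) (σ : TwoForm M), IsSymplectic σ ∧ ∃ r : ℝ, 0 < r ∧
    ∃ (p : M.carrier) (ψ : ℕ → E6 → M.carrier), (∀ n, IsBallEmb σ r (ψ n) ∧ ψ n 0 = p) ∧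
      (∀ m n, Isotopic σ r (ψ m) (ψ n)) ∧ ∀ m n, m ≠ n → ¬ IsotopicAt σ r p (ψ m) (ψ n)

theorem smooth_of2 {V : Type} [NormedAddCommGroup V] [NormedSpace ℝ V] {M : ClosedMfd 6}
    {ι : M.carrier → V} (h : ManifoldP.Emb M ι) (g : ℝ × E6 → M.carrier) (s : Set (ℝ × E6))
    (hg : ContDiffOn ℝ ∞ (ι ∘ g) s) : ContMDiffOn (𝓘(ℝ, ℝ).prod (𝓡 6)) (𝓡 6) ∞ g s := by
  have h1 : ContMDiffOn 𝓘(ℝ, ℝ × E6) (𝓡 6) ∞ g s := by
    intro y hy
    rw [contMDiffWithinAt_iff]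
    refine ⟨h.ind.continuousOn_iff.2 hg.continuousOn y hy, ?_⟩
    obtain ⟨f, hf⟩ := h.lin (g y)
    simp only [mfld_simps]
    have : (chartAt E6 (g y)) ∘ g = f ∘ (ι ∘ g) := funext fun z => hf _
    rw [this]
    exact f.contDiff.contDiffAt.comp_contDiffWithinAt y (hg y hy)
  have h2 : ContMDiff (𝓘(ℝ, ℝ).prod (𝓡 6)) 𝓘(ℝ, ℝ × E6) ∞ fun q : ℝ × E6 => (q.1, q.2) :=
    contMDiff_fst.prodMk_space contMDiff_snd
  exact h1.comp h2.contMDiffOn fun q hq => hq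

theorem quotB {W : Type} [NormedAddCommGroup W] [NormedSpace ℝ W] [FiniteDimensional ℝ W]
    {A : Atl (W × ℝ)} {S : Set (W × ℝ)} (H : Hy A S) (hR : LocRetr S) (hT : A.Tame S)
    (hK : IsCompact {x ∈ S | |x.2| ≤ 1}) {r : ℝ} (hr : 0 < r) {β : ℕ → E6 → W × ℝ}
    (b1 : ∀ n, QBall A S r (β n)) (b2 : ∀ m n, Pth (QBall A S r) r (β m) (β n))
    (b3 : ∀ n : ℕ, β n 0 = sh n (β 0 0))
    (hN : ∀ k : ℤ, k ≠ 0 → ¬ Pth (A.Ball S r) r (β 0) fun y => sh k (β 0 y)) : FinalB := by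
  have hS := H.sh
  have z0 : (0 : E6) ∈ closedBall (0 : E6) r := mem_closedBall_self hr.le
  have o0 : (0 : ℝ) ∈ Icc (0 : ℝ) 1 := ⟨le_rfl, zero_le_one⟩
  have o1 : (1 : ℝ) ∈ Icc (0 : ℝ) 1 := ⟨zero_le_one, le_rfl⟩
  have p0 : QuotP.th (β 0 0) ∈ QuotP.th '' S := mem_image_of_mem _ ((b1 0).ball.mem z0)
  set S' := connectedComponentIn (QuotP.th '' S) (QuotP.th (β 0 0)) with hS'
  have s1 : S' ⊆ QuotP.th '' S := connectedComponentIn_subset _ _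
  have s2 : ∀ x ∈ S', ∀ᶠ y in 𝓝 x, y ∈ QuotP.th '' S → y ∈ S' := fun x hx =>
    comp_open (locRetr_th hS hR) hx
  have s3 : ∀ x ∈ S', tan S' x = tan (QuotP.th '' S) x := fun x hx =>
    tan_congr ((s2 x hx).mono fun y hy => ⟨fun a => s1 a, hy⟩)
  obtain ⟨M, ι, m0, m3⟩ := ManifoldP.exists_emb (S := S')
    (comp_compact (compact_th hS hK) p0) (isConnected_connectedComponentIn_iff.2 p0)
    ((locRetr_th hS hR).mono s1 s2) (fun x hx => by rw [s3 x hx]; exact rank_th H (s1 hx))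
  obtain ⟨σ, m1, m5⟩ := m0.form (Ω := Om A S)
    (fun x hx => by
      rw [m3] at hx ⊢
      obtain ⟨N, l, a1, a2, a3, a4⟩ := prim_th H (s1 hx)
      exact ⟨N, l, a1, a2, a3, fun y hy a ha b hb =>
        a4 y ⟨s1 hy.1, hy.2⟩ a (s3 y hy.1 ▸ ha) b (s3 y hy.1 ▸ hb)⟩)
    fun x hx a ha h0 => by
      rw [m3] at hx ha ⊢
      rw [s3 x hx] at ha ⊢
      exact nondeg_th H hT (s1 hx) ha h0
  have m2 := m0.inj
  have m4 := m0.contMDiff
  have inv : ∀ x, x ∈ S' → ι (Function.invFun ι x) = x := fun x hx =>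
    Function.invFun_eq (by
      show _ ∈ range ι
      rwa [m3])
  have key : ∀ ψ, QBall A S r ψ → (∀ y ∈ closedBall (0 : E6) r, QuotP.th (ψ y) ∈ S') →
      IsBallEmb σ r fun y => Function.invFun ι (QuotP.th (ψ y)) := fun ψ b hp => by
    have a2 : ∀ y ∈ closedBall (0 : E6) r,
        ι (Function.invFun ι (QuotP.th (ψ y))) = QuotP.th (ψ y) := fun y hy => inv _ (hp y hy)
    have a3 : ContMDiffOn (𝓡 6) (𝓡 6) ∞ (fun y => Function.invFun ι (QuotP.th (ψ y)))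
        (closedBall 0 r) := m0.smooth_of _ _ ((contDiff_th.comp_contDiffOn b.ball.sm).congr a2)
    refine ⟨a3, fun y hy y' hy' e => ?_, fun y hy v w => ?_⟩
    · exact b.qinj hy hy' (((a2 y hy).symm.trans (congrArg ι e)).trans (a2 y' hy'))
    · obtain ⟨i, hi⟩ := H.pre.cov _ (b.ball.mem hy)
      exact (pull_eq H m4 m5 hr a3 b.ball.sm b.ball.mem a2 hy hi v w).trans
        (b.ball.pull y hy i hi v w)
  have c0 : ∀ n, QuotP.th (β n 0) = QuotP.th (β 0 0) := fun n => by rw [b3 n, th_sh]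
  have fam : ∀ (m : ℕ) (Ψ : ℝ × E6 → W × ℝ), ContDiffOn ℝ ∞ Ψ (Icc 0 1 ×ˢ closedBall 0 r) →
      (∀ t ∈ Icc (0 : ℝ) 1, QBall A S r fun y => Ψ (t, y)) → Ψ (0, 0) = β m 0 →
      ∀ q ∈ Icc (0 : ℝ) 1 ×ˢ closedBall (0 : E6) r, QuotP.th (Ψ q) ∈ S' :=
    fun m Ψ a1 a2 a3 q hq =>
      ((isPreconnected_Icc.prod (convex_closedBall (0 : E6) r).isPreconnected).image
        (QuotP.th ∘ Ψ) (contDiff_th.continuous.comp_continuousOn
          a1.continuousOn)).subset_connectedComponentIn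
        ⟨(0, 0), ⟨o0, z0⟩, by rw [Function.comp_apply, a3, c0]⟩
        (image_subset_iff.2 fun q hq => mem_image_of_mem _ ((a2 q.1 hq.1).ball.mem hq.2))
        ⟨q, hq, rfl⟩
  have c1 : ∀ n, ∀ y ∈ closedBall (0 : E6) r, QuotP.th (β n y) ∈ S' := fun n y hy =>
    fam n (fun q => β n q.2) ((b1 n).ball.sm.comp contDiff_snd.contDiffOn fun _ hq => hq.2)
      (fun _ _ => b1 n) rfl (0, y) ⟨o0, hy⟩
  refine ⟨M, σ, m1, r, hr, Function.invFun ι (QuotP.th (β 0 0)),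
    fun n y => Function.invFun ι (QuotP.th (β n y)),
    fun n => ⟨key _ (b1 n) (c1 n), by simp only [c0 n]⟩, fun m n => ?_,
    fun m n hmn ⟨Ψ, e1, e2, e3, e4⟩ => ?_⟩
  · obtain ⟨Ψ, a1, a2, a3, a4⟩ := b2 m n
    have a5 := fam m Ψ a1 a2 (a3 0 z0)
    exact ⟨fun q => Function.invFun ι (QuotP.th (Ψ q)),
      smooth_of2 m0 _ _ ((contDiff_th.comp_contDiffOn a1).congr fun q hq => inv _ (a5 q hq)),
      fun t ht => key _ (a2 t ht) fun y hy => a5 (t, y) ⟨ht, hy⟩,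
      fun y hy => by simp only [a3 y hy], fun y hy => by simp only [a4 y hy]⟩
  have e5 : ContDiffOn ℝ ∞ (ι ∘ Ψ) (Icc 0 1 ×ˢ closedBall 0 r) := by
    have a : ContMDiff 𝓘(ℝ, ℝ × E6) (𝓘(ℝ, ℝ).prod (𝓡 6)) ∞ fun q : ℝ × E6 => (q.1, q.2) :=
      contDiff_fst.contMDiff.prodMk contDiff_snd.contMDiff
    exact contMDiffOn_iff_contDiffOn.1
      ((m4.comp_contMDiffOn e1).comp a.contMDiffOn fun q hq => hq)
  have e6 : ∀ q, ι (Ψ q) ∈ QuotP.th '' S := fun q => s1 (m3 ▸ mem_range_self _)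
  obtain ⟨g, g1, g2, g3⟩ := lift_th e5 (fun q _ => (e6 q).imp fun _ a => a.2)
    (b1 m).ball.sm.continuousOn fun y hy => by
      rw [Function.comp_apply, e3 y hy, inv _ (c1 m y hy)]
  have sl : ∀ t ∈ Icc (0 : ℝ) 1, ContDiffOn ℝ ∞ (fun y => g (t, y)) (closedBall 0 r) :=
    fun t ht => g1.comp (contDiff_const.prodMk contDiff_id).contDiffOn fun y hy => ⟨ht, hy⟩
  have g4 : ∀ y ∈ closedBall (0 : E6) r, ∃ k : ℤ, g (1, y) = ((β n y).1, (β n y).2 + 2 * k) :=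
    fun y hy => th_eq_iff.1 (by
      rw [g2 (1, y) ⟨o1, hy⟩, Function.comp_apply, e4 y hy, inv _ (c1 n y hy)])
  obtain ⟨k, hk⟩ := g4 0 z0
  have g5 : ∀ t ∈ Icc (0 : ℝ) 1, ∃ k : ℤ, g (t, 0) = ((β 0 0).1, (β 0 0).2 + 2 * k) :=
    fun t ht => th_eq_iff.1 (by
      rw [g2 (t, 0) ⟨ht, z0⟩, Function.comp_apply, (e2 t ht).2, inv _ (c1 0 0 z0)])
  have g6 := const_int (f := fun t => ((g (t, 0)).2 - (β 0 0).2) / 2) isPreconnected_Icc
    (((g1.continuousOn.comp (f := fun t : ℝ => (t, (0 : E6))) (by fun_prop)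
      fun t ht => ⟨ht, z0⟩).snd.sub continuousOn_const).div_const 2)
    (fun t ht => (g5 t ht).imp fun j hj => by rw [hj]; ring) o0 o1
  have hk0 : k ≠ 0 := by
    rintro rfl
    rw [g3 0 z0, hk, b3 m, b3 n, sh_eq, sh_eq] at g6
    have : (m : ℝ) = n := by
      push_cast at g6
      linarith
    exact hmn (by exact_mod_cast this)
  have g7 : Pth (A.Ball S r) r (β m) fun y => sh k (β n y) := by
    refine ⟨g, g1, fun t ht => ?_, g3, fun y hy => ?_⟩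
    · have a1 : ∀ y ∈ closedBall (0 : E6) r, ι (Ψ (t, y)) = QuotP.th (g (t, y)) := fun y hy =>
        (g2 (t, y) ⟨ht, hy⟩).symm
      have a2 : MapsTo (fun y => g (t, y)) (closedBall 0 r) S := fun y hy =>
        mem_of_th hS (a1 y hy ▸ e6 _)
      refine ⟨sl t ht, a2, fun y hy y' hy' e => (e2 t ht).1.inj hy hy' (m2 ?_),
        fun y hy i hi a b =>
          (pull_eq H m4 m5 hr (e2 t ht).1.smooth (sl t ht) a2 a1 hy hi a b).symm.trans
            ((e2 t ht).1.pull y hy a b)⟩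
      exact ((a1 y hy).trans (congrArg QuotP.th e)).trans (a1 y' hy').symm
    · have a1 := const_int (f := fun y => ((g (1, y)).2 - (β n y).2) / 2)
        (convex_closedBall (0 : E6) r).isPreconnected
        (((sl 1 o1).continuousOn.snd.sub (b1 n).ball.sm.continuousOn.snd).div_const 2)
        (fun y hy => (g4 y hy).imp fun j hj => by rw [hj]; ring) hy z0
      obtain ⟨j, hj⟩ := g4 y hy
      rw [hj, hk] at a1
      rw [hj]
      simp only [sh_eq]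
      exact Prod.ext rfl (by dsimp only at a1 ⊢; linarith)
  exact hN k hk0 ((((b2 0 m).mono fun _ c => c.ball).trans g7).trans
    (iso_sh H hr ((b2 n 0).mono fun _ c => c.ball) k))

end

end Pool.Agent.MP_9758ca_gt.Bas
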