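import Mathlib
import Pool.Agent.MP_9758ca_gt.PA
import Pool.Agent.MP_9758ca_gt.PM
import Pool.Agent.MP_9758ca_gt.QE
import Pool.Agent.MP_9758ca_gt.PL
import Pool.Agent.MP_9758ca_gt.PE
import Pool.Agent.MP_9758ca_gt.PF
import Pool.Agent.MP_9758ca_gt.PG
import Pool.Agent.MP_9758ca_gt.Tree
import Pool.Agent.MP_9758ca_gt.PI
import Pool.Agent.MP_9758ca_gt.PJ
import Pool.Agent.MP_9758ca_gt.PK
import Pool.Agent.MP_9758ca_gt.V0
import Pool.Agent.MP_9758ca_gt.Eq
import Pool.Agent.MP_9758ca_gt.Schl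
import Pool.Agent.MP_9758ca_gt.Gtame
import Pool.Agent.MP_9758ca_gt.Gn
import Pool.Agent.MP_9758ca_gt.Model
import Pool.Agent.MP_9758ca_gt.QD
import Pool.Agent.MP_9758ca_gt.Runge
import Pool.Agent.MP_9758ca_gt.QF
import Pool.Agent.MP_9758ca_gt.QB

import Pool.Agent.MP_9758ca_gt.Bas.Quo
import Pool.Agent.MP_9758ca_gt.Bas.Ch

/-!
Based ball embeddings, part 5: assembly.
-/

open scoped Topology ContDiff ComplexConjugate
open Set Metric Filter Complex

namespace Pool.Agent.MP_9758ca_gt.Bas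

open GtameP in
theorem gtame_pos (h1 : GcompStmt) (h2 : GcptStmt) (h3 : AmbientStmt) :
    ∃ b₀ ε₀ : ℝ, 0 < b₀ ∧ 0 < ε₀ ∧ ∀ ε, 0 < ε → ε ≤ ε₀ → ∀ t, (atl b₀ ε t).Tame SS := by
  obtain ⟨L, hL⟩ := exists_deriv_rho_bound
  obtain ⟨hret, hbase, -, -, hpre⟩ := h1
  set b₀ : ℝ := 1 / (L ^ 2 + 1) with hb₀
  obtain ⟨O, M, π, om, h, J, hA, hKM, hJ, -, hR⟩ :=
    (h3 VV (atl b₀ 0 false) SS hret (hpre b₀ 0 false).1).2 (hpre b₀ 0 false).2 _ (h2.1 1)
      fun x hx => hx.1
  have hinj := (hpre b₀ 0 false).1.inj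
  have htan : ∀ x ∈ M, tan M x = tan SS x := fun x hx =>
    tan_congr ((hR.rel x hx).mono fun y hy => ⟨fun hy' => hR.sub hy', hy⟩)
  have hform : ∀ i, ∀ x ∈ M, x ∈ dom i → ∀ a ∈ tan SS x,
      om x a (J x a) = dd (lamH i) x a (J x a) + dd (lamB b₀ i) x a (J x a) ∧
      h x a (J x a) = dd (lamS i) x a (J x a) := by
    intro i x hx hi a ha
    obtain ⟨e1, e2⟩ := hR.form i x hx hi a ha _ (hR.cx i x hx hi a ha).1
    refine ⟨?_, e2⟩
    rw [e1, dd_atl b₀ 0 false hi, zero_mul, add_zero]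
  have hcl : IsClosed {q : VV × VV | fderiv ℝ π q.1 q.2 = q.2} :=
    isClosed_eq ((((hA.sm.continuous_fderiv (by simp)).comp continuous_fst)).clm_apply
      continuous_snd) continuous_snd
  have hK := ((h2.1 1).prod (isCompact_sphere (0 : VV) 1)).inter_right hcl
  have cJ : Continuous fun q : VV × VV => J q.1 q.2 :=
    (hJ.continuous.comp continuous_fst).clm_apply continuous_snd
  have cf : Continuous fun q : VV × VV => om q.1 q.2 (J q.1 q.2) :=
    ((hA.smo.continuous.comp continuous_fst).clm_apply continuous_snd).clm_apply cJ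
  have cg : Continuous fun q : VV × VV => h q.1 q.2 (J q.1 q.2) :=
    ((hA.smh.continuous.comp continuous_fst).clm_apply continuous_snd).clm_apply cJ
  have hpt : ∀ q ∈ ({x ∈ SS | |x.2| ≤ 1} ×ˢ sphere (0 : VV) 1) ∩
      {q : VV × VV | fderiv ℝ π q.1 q.2 = q.2}, 0 ≤ om q.1 q.2 (J q.1 q.2) ∧
      (om q.1 q.2 (J q.1 q.2) ≤ 0 → 0 < h q.1 q.2 (J q.1 q.2)) := by
    rintro ⟨x, a⟩ ⟨⟨hx, ha1⟩, ha2⟩
    have hM := hKM hx
    have ha : a ∈ tan SS x := htan x hM ▸ (hA.mem_tan_iff hM a).2 ha2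
    obtain ⟨i, hi⟩ := dom_cover hx.1
    obtain ⟨hb, hab⟩ := hR.cx i x hM hi a ha
    obtain ⟨e1, e2⟩ := hform i x hM hi a ha
    obtain ⟨p1, p2⟩ := base hL hi (hbase x hx.1 i hi a ha _ hb hab)
    refine ⟨e1 ▸ p1, fun h0 => ?_⟩
    obtain ⟨z, ⟨c, hc⟩, c', hc'⟩ := p2 (e1 ▸ h0)
    have hne : cof i x a ≠ 0 := fun hz => by
      have := hinj i x hx.1 hi a ha hz
      simp [this] at ha1
    exact e2 ▸ exc hx.1 hi ha hb hab hne z hc hc'
  obtain ⟨ε₀, hε₀, hε⟩ := small hK cf cg (fun q hq => (hpt q hq).1) fun q hq => (hpt q hq).2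
  have main : ∀ ε, 0 < ε → ε ≤ ε₀ → ∀ t i, ∀ x ∈ SS, |x.2| ≤ 1 → x ∈ dom i → ∀ a ∈ tan SS x,
      ∀ b ∈ tan SS x, cof i x b = I • cof i x a → a ≠ 0 → 0 < dd ((atl b₀ ε t).l i) x a b := by
    intro ε e0 e1 t i x hx hT hi a ha b hb hab hne
    have hM : x ∈ M := hKM ⟨hx, hT⟩
    obtain ⟨hb', hab'⟩ := hR.cx i x hM hi a ha
    have hbJ : b = J x a := by
      refine sub_eq_zero.1 (hinj i x hx hi _ (sub_mem hb hb') ?_)
      change cof i x (b - J x a) = 0
      rw [map_sub, hab]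
      exact sub_eq_zero.2 hab'.symm
    obtain ⟨f1, f2⟩ := hform i x hM hi a ha
    rw [dd_atl b₀ ε t hi, hbJ, ← f1, ← f2]
    have hn : 0 < ‖a‖ := norm_pos_iff.2 hne
    have hu : ‖a‖⁻¹ • a ∈ tan M x := (htan x hM).symm ▸ Submodule.smul_mem _ _ ha
    have := hε ε e0 e1 (x, ‖a‖⁻¹ • a) ⟨⟨⟨hx, hT⟩, by
      rw [mem_sphere_zero_iff_norm, norm_smul, norm_inv, norm_norm, inv_mul_cancel₀ hn.ne']⟩,
      (hA.mem_tan_iff hM _).1 hu⟩
    simp only [map_smul, _root_.smul_apply, smul_eq_mul] at this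
    have e : om x a (J x a) + ε * h x a (J x a) = ‖a‖ ^ 2 *
        (‖a‖⁻¹ * (‖a‖⁻¹ * om x a (J x a)) + ε * (‖a‖⁻¹ * (‖a‖⁻¹ * h x a (J x a)))) := by
      field_simp
    rw [e]
    positivity
  refine ⟨b₀, ε₀, by positivity, hε₀, fun ε e0 e1 t i x hx hi a ha b hb hab hne => ?_⟩
  have hT : |x.2 + ((-round x.2 : ℤ) : ℝ)| ≤ 1 := by
    have := abs_sub_round x.2
    rw [Int.cast_neg, ← sub_eq_add_neg]
    linarith
  rw [← lam_shift b₀ ε t (-round x.2) i x a b]
  refine main ε e0 e1 t _ _ (SS_shift _ hx) hT ((dom_shift _ i x).2 hi) a ?_ b ?_ ?_ hne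
  · rwa [tan_shift]
  · rwa [tan_shift]
  · rw [cof_shift]
    exact hab

theorem parts : GcompStmt ∧ NoisoStmt := by
  have cau2 := cau2_of cau1
  have schl := schl_of cau1 cau2
  have apri := apri_of schl (reg_of schl)
  have stokes := stokes_of mob
  have neck := neck_of stokes apri
  have small := small_of apri neck (rem_of neck cau1 cau2 apri) mob
  have loc := loc_of apri small
  have top := top_of loc (tree_of loc small mob) small mob
  have fib := fib_of (hw_of cau1)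
  have cover := cover_of (cover1_of fib) small mob
  have pair := pair_of fib
  have ss := ss_of riesz
  have std1 := std1_of cau1 cau2
  have std2 := std2_of std1 cpt riesz
  have runge := runge_of cau1 cau2
  have bundle := bundle_of line ss
  have chern := chern_of stokes frame
  have chart := chart_of nem apri
  have eq := eq_of nem
  have strat := strat_of frame chart eq std2 (surj_of std2 runge riesz pair) riesz ss cpt
  have gen := gen_of pert strat label (mark_of mob frame pair) (comb_of cover bundle chern frame)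
  have mainM := mainM_of (thick_of (parity_of eu) riesz)
    (model_of frame chart eq std2 riesz runge) chart frame stokes
  have mainW := double_of (mainS_of gen (mainK_of top bundle chern mob cpt) mainM)
  have gcomp := gcomp_of go gn gprim ambient
  have gcut := gcut_of gcomp
  have deg := deg_of (holline_of line std1 stokes) gcomp slice
  have e1 := expl1_of gcomp
  have e2 := expl2_of e1 stokes
  have cls := class_of deg slice e1 e2 mob gcomp
  have conf := conf_of slice deg cls (balluse_of (mono_of stokes) mob) gball gcomp mob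
  have hyp := hyp_of conf cls e1 (explF_of gcomp e1 frame) e2 (expl3_of gcomp e1 holpush) gcut
    gcpt frame gball
  exact ⟨gcomp, noiso_of mainW hyp ambient gcomp gcpt gball tamefam (v0_of ss gcut) (path_of ss)⟩

theorem final_based : FinalB := by
  obtain ⟨h2, h5⟩ := parts
  obtain ⟨b₀, ε₀, hb, hε₀, hT⟩ := gtame_pos h2 gcpt ambient
  have hε : 0 < min ε₀ (1 / 2) := lt_min hε₀ (by norm_num)
  have hε1 : min ε₀ (1 / 2) ≤ 1 / 2 := min_le_right _ _
  have hTa := hT _ hε (min_le_left _ _) true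
  generalize min ε₀ (1 / 2) = ε at hε hε1 hTa
  have hp := Real.pi_pos
  have hq : 0 < (1 - ε / 2) / Real.pi := div_pos (by linarith) hp
  have hr : 0 < √((1 - ε / 2) / Real.pi) := Real.sqrt_pos.2 hq
  have hr2 : Real.pi * √((1 - ε / 2) / Real.pi) ^ 2 = 1 - ε / 2 := by
    rw [Real.sq_sqrt hq.le]; field_simp
  generalize √((1 - ε / 2) / Real.pi) = r at hr hr2
  have hB := gball.1 r 0 hr (by linarith)
  have H : QuotP.Hy (atl b₀ ε true) SS := ⟨(h2.2.2.2.2 b₀ ε true).1, (h2.2.2.2.2 b₀ ε true).2,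
    fun n x hx => by exact_mod_cast SS_shift (2 * n) hx,
    fun n i => ⟨(i.1, i.2.1, i.2.2 + 2 * n), fun x hx =>
      ⟨by exact_mod_cast (dom_shift (2 * n) i x).2 hx,
        fun a b => by exact_mod_cast lam_shift b₀ ε true (2 * n) i x a b⟩⟩⟩
  have q0 : QBall (atl b₀ ε true) SS r (ball0 0) := ⟨hB.1 _ _ _, fun y hy z hz e => by
    obtain ⟨n, he⟩ := QuotP.th_eq_iff.1 e
    have e1 := abs_lt.1 (hB.2 y hy).2.1
    have e2 := abs_lt.1 (hB.2 z hz).2.1
    have e3 : (ball0 0 y).2 = (ball0 0 z).2 + 2 * n := congrArg Prod.snd he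
    have e4 : (n : ℝ) < 1 := by linarith [e1.2, e2.1]
    have e5 : (-1 : ℝ) < n := by linarith [e1.1, e2.2]
    have e6 : n = 0 := by
      have : n < 1 := by exact_mod_cast e4
      have : -1 < n := by exact_mod_cast e5
      omega
    refine (hB.1 b₀ ε true).inj hy hz ?_
    rw [he, e6]; simp⟩
  have step : ∀ (n : ℕ) (ψ : {ψ // QBall (atl b₀ ε true) SS r ψ ∧ ψ 0 = vert (n + 2⁻¹)}),
      ∃ ψ' : {ψ // QBall (atl b₀ ε true) SS r ψ ∧ ψ 0 = vert ((n + 1 : ℕ) + 2⁻¹)},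
        Pth (QBall (atl b₀ ε true) SS r) r ψ.1 ψ'.1 := fun n ψ => by
    obtain ⟨ρ, χ, a, c1, c2, c3, c4⟩ := chart hb ε (n + 1)
    obtain ⟨ψ', d1, d2, d3⟩ := push H h2.1 c1 c2 hr ψ.2.1 (by
      rw [ψ.2.2, c3]
      congr 1
      push_cast
      ring)
    exact ⟨⟨ψ', d1, by rw [d3, c4]; push_cast; rfl⟩, d2⟩
  choose F hF using step
  let γ : ∀ n : ℕ, {ψ // QBall (atl b₀ ε true) SS r ψ ∧ ψ 0 = vert (n + 2⁻¹)} := fun n =>
    Nat.rec ⟨ball0 0, q0, by rw [GballP.ball0_zero]; simp⟩ F n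
  have g0 : (γ (2 * 0)).1 = ball0 0 := rfl
  refine quotB H h2.1 hTa (gcpt.1 1) hr (β := fun n => (γ (2 * n)).1) (fun n => (γ _).2.1)
    (fun m n => Pth.chain (β := fun n => (γ n).1) (fun n => (γ n).2.1)
      (fun n => (γ n).2.1.ball.sm) (fun n => hF n (γ n)) _ _) (fun n => ?_) fun k hk hn => ?_
  · rw [(γ _).2.2, (γ _).2.2, sh_eq]
    refine Prod.ext rfl ?_
    simp only [vert, pt]
    push_cast
    ring
  · have e : (fun y => sh k (ball0 0 y)) = ball0 (0 + 2 * k) :=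
      funext fun y => by rw [ball0_shift, sh_eq]; simp
    simp only [g0] at hn
    rw [e] at hn
    rcases lt_trichotomy 0 (0 + 2 * k) with hl | hl | hl
    · exact h5 b₀ ε r _ _ hε hTa hr (by linarith) (by linarith) hl hn
    · omega
    · exact h5 b₀ ε r _ _ hε hTa hr (by linarith) (by linarith) hl hn.symm

end Pool.Agent.MP_9758ca_gt.Bas
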